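import Mathlib
import Pool.Agent.H984R3.ConvDefs
import Pool.Agent.H984R3.Burl2
import Pool.Agent.W225.CG.Geom
import Pool.Agent.W225.CG.BDim
import Pool.Agent.Y350.CG.Abs

/-!
# Convex geometries of bounded local dimension and unbounded Boolean dimension

The families of boxes of `Pool/Agent/H984R3/Burl2` have a natural orientation of the intersecting
pairs; the closed sets attached to the oriented pairs make every Boolean realizer colour the boxes.
-/

namespace Pool.Agent.K7.H86.CG

open Pool.Agent.H984R3.Burl Pool.Agent.H984R3.ConvDefs Pool.Agent.W225.CG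

/-- the arrow from the box `u` to the box `v` -/
def Arr (u v : Box) : Prop := v.x0 < u.x0 ∧ u.y0 < v.y0 ∧ u.z0 < v.z0

/-- all intersecting pairs are oriented -/
def OGood {W R : Type} (c : Conf W R) : Prop :=
  ∀ u v, u ≠ v → (c.bx u).Meets (c.bx v) → Arr (c.bx u) (c.bx v) ∨ Arr (c.bx v) (c.bx u)

theorem arr_flat {u v : Box} (h : Arr u v) : Arr (flat u) (flat v) := by
  obtain ⟨h1, h2, h3⟩ := h
  refine ⟨h1, h2, ?_⟩
  simp only [flat]
  linarith

theorem arr_place {p u v : Box} (hp : p.SUnit) (h : Arr u v) : Arr (place p u) (place p v) := by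
  obtain ⟨_, hx, _, _, hy, _, _, hz, _⟩ := hp
  obtain ⟨h1, h2, h3⟩ := h
  exact ⟨(aff_lt hx).2 h1, (aff_lt hy).2 h2, (aff_lt hz).2 h3⟩

theorem arr_dbox {W R : Type} (c : Conf W R) {q : R} {w : W} (h : w ∈ c.C q) :
    Arr (flat (c.bx w)) (dbox (c.pb q)) := by
  obtain ⟨i1, i2, i3, i4, i5⟩ := c.inn q w h
  obtain ⟨f1, f2, f3, f4, f5, f6, f7⟩ := fr (c.punit q)
  refine ⟨i1, ?_, ?_⟩
  · simp only [flat, dbox]; linarith
  · simp only [flat, dbox]; linarith

theorem ogood_inner {W R : Type} {c : Conf W R} (h : OGood c) : OGood (inner c) := by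
  rintro (u | p) (v | q) hne hm
  · rcases h u v (fun e => hne (by rw [e])) (flat_meets.1 hm) with h | h
    · exact Or.inl (arr_flat h)
    · exact Or.inr (arr_flat h)
  · exact Or.inl (arr_dbox c ((dbox_meets c q u).1 hm.symm))
  · exact Or.inr (arr_dbox c ((dbox_meets c p v).1 hm))
  · exact absurd hm (not_meets_of_ysep (dbox_ysep c (fun e => hne (by rw [e]))))

theorem ogood_compose {W R V S : Type} {c : Conf W R} {d : Conf V S} (h : OGood c)
    (h' : OGood d) : OGood (compose c d) := by
  have key : ∀ (p q : R) (v v' : V), (place (c.pb p) (d.bx v)).Meets (place (c.pb q) (d.bx v')) →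
      p = q := by
    intro p q v v' hm
    by_contra hpq
    exact not_meets_of_ysep (ysep_inside (c.ysep p q hpq)
      (place_inside (c.punit p) (d.unit v)) (place_inside (c.punit q) (d.unit v'))) hm
  have k1 : ∀ (w : W) (q : R) (v : V), ¬ (c.bx w).Meets (place (c.pb q) (d.bx v)) :=
    fun w q v => not_meets_inside c q w (place_inside (c.punit q) (d.unit v))
  rintro (u | ⟨p, u⟩) (v | ⟨q, v⟩) hne hm
  · exact h u v (fun e => hne (by rw [e])) hm
  · exact absurd hm (k1 _ _ _)
  · exact absurd hm.symm (k1 _ _ _)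
  · have e1 := key p q u v hm
    subst e1
    rcases h' u v (fun e => hne (by rw [e])) ((place_meets (c.punit _)).1 hm) with h | h
    · exact Or.inl (arr_place (c.punit _) h)
    · exact Or.inr (arr_place (c.punit _) h)

theorem exists_richO (k : ℕ) : ∃ (W R : Type) (_ : Finite W) (_ : Finite R) (c : Conf W R),
    c.Rich k ∧ OGood c := by
  induction k with
  | zero => exact ⟨PEmpty, Unit, inferInstance, inferInstance, base, fun f _ => ⟨(), Nat.zero_le _⟩,
      fun u => u.elim⟩
  | succ k ih =>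
    obtain ⟨W, R, hW, hR, c, hc, ho⟩ := ih
    exact ⟨W ⊕ (R × (W ⊕ R)), R × (R ⊕ R), inferInstance, inferInstance, compose c (inner c),
      rich_step c hc, ogood_compose ho (ogood_inner ho)⟩

/-- Triangle-free families of boxes of large chromatic number whose intersecting pairs are
oriented. -/
theorem exists_boxesO (k : ℕ) : ∃ (W : Type) (_ : Finite W) (b : W → Box),
    (∀ w, (b w).Unit) ∧
    (∀ u v w, u ≠ v → v ≠ w → u ≠ w → (b u).Meets (b v) → (b v).Meets (b w) →
      ¬ (b u).Meets (b w)) ∧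
    (∀ f : W → Fin k, ∃ v w, v ≠ w ∧ (b v).Meets (b w) ∧ f v = f w) ∧
    (∀ u v, u ≠ v → (b u).Meets (b v) → Arr (b u) (b v) ∨ Arr (b v) (b u)) := by
  obtain ⟨W, R, hW, hR, c, hc, ho⟩ := exists_richO (k + 1)
  refine ⟨W, hW, c.bx, c.unit, c.tri, ?_, ho⟩
  intro f
  by_contra hcon
  push Not at hcon
  obtain ⟨p, hp⟩ := hc (fun w => (f w : ℕ)) (by
    intro v w hvw hm e
    exact hcon v w hvw hm (Fin.ext e))
  have hsub : (fun w => (f w : ℕ)) '' c.C p ⊆ ((Finset.range k : Finset ℕ) : Set ℕ) := by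
    rintro x ⟨w, _, rfl⟩
    simp
  have := Set.ncard_le_ncard hsub (Finset.finite_toSet _)
  rw [Set.ncard_coe_finset, Finset.card_range] at this
  omega

/-! ### The ordered data: the first coordinate upwards, the two others downwards -/

def ky (b : Box) (a : Fin 3) : ℚ := ![b.x1, - b.y0, - b.z0] a

/-- `b` lies strictly before `c` -/
def bef (a : Fin 3) (b c : Box) : Prop := ![b.x1 < c.x0, c.y1 < b.y0, c.z1 < b.z0] a

def data {W : Type} {n : ℕ} (e : W ≃ Fin n) (b : W → Box) (hb : ∀ w, (b w).Unit) :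
    Data (Fin 3) W (ℚ ×ₗ Fin n) where
  key := fun a w => toLex (ky (b w) a, e w)
  inj := by
    intro a v w h
    have := congrArg (fun z => (ofLex z).2) h
    exact e.injective this
  ll := fun a v w => bef a (b v) (b w)
  ll_down := by
    intro a u v w huv h
    rw [Prod.Lex.toLex_le_toLex] at huv
    have h1 : ky (b u) a ≤ ky (b v) a := by
      rcases huv with h' | h'
      · exact h'.le
      · exact h'.1.le
    fin_cases a <;> simp [ky, bef] at h1 h ⊢ <;> linarith
  ll_lt := by
    intro a v w h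
    rw [Prod.Lex.toLex_lt_toLex]
    left
    obtain ⟨_, v1, _, _, v2, _, _, v3, _⟩ := hb v
    obtain ⟨_, w1, _, _, w2, _, _, w3, _⟩ := hb w
    change ky (b v) a < ky (b w) a
    fin_cases a <;> simp [ky, bef] at h ⊢ <;> linarith

theorem adj_iff {W : Type} {n : ℕ} (e : W ≃ Fin n) (b : W → Box) (hb : ∀ w, (b w).Unit)
    (v w : W) : (data e b hb).Adj v w ↔ v ≠ w ∧ (b v).Meets (b w) := by
  unfold Data.Adj
  refine and_congr_right fun _ => ?_
  constructor
  · intro h
    have h0 := h 0
    have h1 := h 1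
    have h2 := h 2
    simp [data, bef] at h0 h1 h2
    exact ⟨h0.2, h0.1, h1.1, h1.2, h2.1, h2.2⟩
  · rintro ⟨m1, m2, m3, m4, m5, m6⟩ a
    fin_cases a <;> simp [data, bef] <;> constructor <;> assumption

/-- the thresholds of the closed set of an arrow `u → v` -/
def thr (u v t : Box) (a : Fin 3) : Prop := ![u.x0 ≤ t.x1, t.y0 ≤ v.y0, t.z0 ≤ v.z0] a

/-- the closed set of the arrow `u → v`: it contains `v` but not `u` -/
def Ast {W : Type} (b : W → Box) (u v : W) : Set (X (Fin 3) W) := fun x => match x with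
  | Sum.inl t => t ≠ u ∧ ∀ a, thr (b u) (b v) (b t) a
  | Sum.inr (a, t) => thr (b u) (b v) (b t) a

theorem ast_closed {W : Type} {n : ℕ} (e : W ≃ Fin n) (b : W → Box) (hb : ∀ w, (b w).Unit)
    {u v : W} (hm : (b u).Meets (b v)) : Ast b u v ∈ (data e b hb).closed := by
  have hup : ∀ a s t, ky (b s) a ≤ ky (b t) a → thr (b u) (b v) (b s) a →
      thr (b u) (b v) (b t) a := by
    intro a s t h h'
    fin_cases a <;> simp [ky, thr] at h h' ⊢ <;> linarith
  have hup' : ∀ a s t, (data e b hb).key a s ≤ (data e b hb).key a t → thr (b u) (b v) (b s) a →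
      thr (b u) (b v) (b t) a := by
    intro a s t h
    refine hup a s t ?_
    change toLex (ky (b s) a, e s) ≤ toLex (ky (b t) a, e t) at h
    rw [Prod.Lex.toLex_le_toLex] at h
    rcases h with h | h
    · exact h.le
    · exact h.1.le
  refine ⟨?_, ?_, ?_⟩
  · intro a s t h h'
    exact hup' a s t h h'
  · intro w h a
    exact h.2 a
  · intro w h
    by_cases hw : ∀ a, thr (b u) (b v) (b w) a
    · have hwu : w = u := by
        by_contra hne
        exact h ⟨hne, hw⟩
      subst hwu
      right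
      intro a t ht
      change ¬ thr (b w) (b v) (b t) a
      change bef a (b t) (b w) at ht
      obtain ⟨m1, m2, m3, m4, m5, m6⟩ := hm
      fin_cases a <;> simp [bef, thr] at ht ⊢ <;> linarith
    · push Not at hw
      obtain ⟨a, ha⟩ := hw
      left
      refine ⟨a, ?_⟩
      intro t ht
      change ¬ thr (b u) (b v) (b t) a
      exact fun h' => ha (hup' a t w ht.le h')

theorem ast_not {W : Type} {b : W → Box} {u v w : W} (h : Arr (b u) (b v))
    (hm : (b u).Meets (b v)) : ¬ Ast b u v ⊆ Ast b v w := by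
  intro hs
  have hv : (Sum.inl v : X (Fin 3) W) ∈ Ast b u v := by
    refine ⟨?_, ?_⟩
    · rintro rfl
      exact lt_irrefl _ h.1
    · obtain ⟨m1, m2, m3, m4, m5, m6⟩ := hm
      intro a
      fin_cases a <;> simp [thr]
      exact m1
  exact (hs hv).1 rfl

theorem ast_sub {W : Type} {b : W → Box} {u v w t : W} (h1 : Arr (b u) (b v))
    (h2 : Arr (b v) (b w)) (h3 : Arr (b w) (b t)) : Ast b u v ⊂ Ast b w t := by
  obtain ⟨a1, a2, a3⟩ := h1
  obtain ⟨b1, b2, b3⟩ := h2
  obtain ⟨c1, c2, c3⟩ := h3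
  have hthr : ∀ s a, thr (b u) (b v) s a → thr (b w) (b t) s a := by
    intro s a h
    fin_cases a <;> simp [thr] at h ⊢ <;> linarith
  refine ⟨?_, ?_⟩
  · rintro (s | ⟨a, s⟩) h
    · refine ⟨?_, fun a => hthr _ a (h.2 a)⟩
      rintro rfl
      have := h.2 1
      simp [thr] at this
      linarith
    · exact hthr _ a h
  · intro hs
    have h1 : (Sum.inr (1, w) : X (Fin 3) W) ∈ Ast b w t := by
      change thr (b w) (b t) (b w) 1
      simp [thr]
      linarith
    have h2 := hs h1
    change thr (b u) (b v) (b w) 1 at h2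
    simp [thr] at h2
    linarith

/-! ### The colouring given by a Boolean realizer -/

theorem lin_pat' {P : Type} [LinearOrder P] {a b c : P} (hab : a ≠ b) (hbc : b ≠ c)
    (h : (a < b) = (b < c)) : (a < c) = (a < b) := by
  rw [eq_iff_iff] at h ⊢
  by_cases h1 : a < b
  · exact ⟨fun _ => h1, fun _ => h1.trans (h.1 h1)⟩
  · have h2 : ¬ b < c := fun h2 => h1 (h.2 h2)
    have h3 : b < a := lt_of_le_of_ne (not_lt.1 h1) hab.symm
    have h4 : c < b := lt_of_le_of_ne (not_lt.1 h2) hbc.symm
    exact ⟨fun h5 => absurd h5 (h4.trans h3).asymm, fun h5 => absurd h5 h1⟩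

theorem lin_pat {P : Type} (L : LinearOrder P) {a b c : P} (hab : a ≠ b) (hbc : b ≠ c)
    (h : (L.lt a b) = (L.lt b c)) : (L.lt a c) = (L.lt a b) :=
  @lin_pat' P L a b c hab hbc h

theorem bool_colour {P W : Type} [PartialOrder P] (arr : W → W → Prop) (x : W → W → P)
    (h1 : ∀ u v w, arr u v → arr v w → ¬ x u v ≤ x v w)
    (h2 : ∀ u v w t, arr u v → arr v w → arr w t → x u v < x w t) {d : ℕ}
    (hb : BooleanDimLE P d) :
    ∃ f : W → Fin (2 ^ 2 ^ 2 ^ d), ∀ u v, arr u v → f u ≠ f v := by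
  classical
  obtain ⟨t, ht, L, φ, hφ⟩ := hb
  let pat : P → P → Fin t → Prop := fun a b i => (L i).lt a b
  let g : W → W → Set (Fin t → Prop) := fun u v => {ε | ∃ w, arr v w ∧ ε = pat (x u v) (x v w)}
  let hh : W → Set (Set (Fin t → Prop)) := fun u => {s | ∃ v, arr u v ∧ s = g u v}
  have main : ∀ u v, arr u v → hh u ≠ hh v := by
    intro u v huv heq
    have h3 : g u v ∈ hh v := by
      rw [← heq]
      exact ⟨v, huv, rfl⟩
    obtain ⟨w, hvw, hg⟩ := h3
    have h4 : pat (x u v) (x v w) ∈ g v w := by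
      rw [← hg]
      exact ⟨w, hvw, rfl⟩
    obtain ⟨s, hws, hp⟩ := h4
    have hlt := h2 u v w s huv hvw hws
    have hnot := h1 u v w huv hvw
    have hnot' := h1 v w s hvw hws
    have hne1 : x u v ≠ x v w := fun e => hnot e.le
    have hne2 : x v w ≠ x w s := fun e => hnot' e.le
    have hpat : pat (x u v) (x w s) = pat (x u v) (x v w) := by
      funext i
      exact lin_pat (L i) hne1 hne2 (congrFun hp i)
    have f1 := (hφ _ _ hlt.ne).1 hlt
    have f2 := (hφ _ _ hne1).2 (by
      change φ (pat (x u v) (x v w))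
      rw [← hpat]
      exact f1)
    exact hnot f2.le
  have hcard : Nat.card (Set (Set (Fin t → Prop))) ≤ 2 ^ 2 ^ 2 ^ d := by
    rw [Nat.card_eq_fintype_card, Fintype.card_set, Fintype.card_set, Fintype.card_fun,
      Fintype.card_prop, Fintype.card_fin]
    exact Nat.pow_le_pow_right (by norm_num) (Nat.pow_le_pow_right (by norm_num)
      (Nat.pow_le_pow_right (by norm_num) ht))
  let e := Finite.equivFin (Set (Set (Fin t → Prop)))
  refine ⟨fun u => Fin.castLE hcard (e (hh u)), fun u v huv h => main u v huv ?_⟩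
  exact e.injective (Fin.castLE_injective hcard h)

/-- For every `k` there is a finite convex geometry of local dimension at most `5` whose Boolean
dimension is larger than `k`. -/
theorem exists_geometry (k : ℕ) : ∃ (X : Type) (_ : Finite X) (C : Set (Set X)),
    Nonempty X ∧ IsConvexGeometry C ∧ LocalDimLE C 5 ∧ ¬ BooleanDimLE C k := by
  obtain ⟨W, hW, b, hb, htri, hcol, ho⟩ := exists_boxesO (2 ^ 2 ^ 2 ^ k)
  have := Fintype.ofFinite W
  have hne : Nonempty W := by
    obtain ⟨v, _⟩ := hcol (fun _ => ⟨0, by positivity⟩)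
    exact ⟨v⟩
  classical
  let D := data (Fintype.equivFin W) b hb
  have hD : ∀ v w, D.Adj v w ↔ v ≠ w ∧ (b v).Meets (b w) := adj_iff _ b hb
  have htri' : ∀ u v w, D.Adj u v → D.Adj v w → D.Adj u w → False := by
    intro u v w h1 h2 h3
    rw [hD] at h1 h2 h3
    exact htri u v w h1.1 h2.1 h3.1 h1.2 h2.2 h3.2
  refine ⟨W ⊕ (Fin 3 × W), inferInstance, D.closed, ⟨Sum.inl hne.some⟩, closed_geometry D, ?_, ?_⟩
  · have h := Pool.Agent.Y350.CG.localDimLE D htri'
    simpa using h
  · intro hB
    let arr : W → W → Prop := fun u v => Arr (b u) (b v) ∧ (b u).Meets (b v)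
    have hbot : (∅ : Set (X (Fin 3) W)) ∈ D.closed := (closed_geometry D).1
    let x : W → W → D.closed := fun u v =>
      if h : (b u).Meets (b v) then ⟨Ast b u v, ast_closed _ b hb h⟩ else ⟨∅, hbot⟩
    have hx : ∀ u v, arr u v → (x u v : Set (X (Fin 3) W)) = Ast b u v := by
      intro u v h
      simp only [x, dif_pos h.2]
    obtain ⟨f, hf⟩ := bool_colour arr x (by
        intro u v w h1 h2 h3
        have h4 : (x u v : Set (X (Fin 3) W)) ⊆ x v w := h3
        rw [hx u v h1, hx v w h2] at h4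
        exact ast_not h1.1 h1.2 h4) (by
        intro u v w t h1 h2 h3
        have h4 : (x u v : Set (X (Fin 3) W)) ⊂ x w t := by
          rw [hx u v h1, hx w t h3]
          exact ast_sub h1.1 h2.1 h3.1
        exact h4) hB
    obtain ⟨v, w, hvw, hm, he⟩ := hcol f
    rcases ho v w hvw hm with h | h
    · exact hf v w ⟨h, hm⟩ he
    · exact hf w v ⟨h, hm.symm⟩ he.symm

end Pool.Agent.K7.H86.CG
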